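import Pool.Agent.Helper14.CG.Phase
import Pool.Agent.Helper85.CliqueLB1
import Pool.Agent.Helper71.CH.Basic
import Pool.Agent.Helper61.CH.Weights
import Pool.Agent.Helper87.CH.Cost

/-!
# Project CH, module E: the edges of generation `j`
-/

set_option autoImplicit false

namespace Pool.Agent.Helper75.CG

open scoped Classical
open Finset
open Pool.Agent.Helper65.CliqueGame

namespace Setup

section stepEaux

variable {V Δ : Type} [Fintype V] [Fintype Δ] (X : Setup V Δ)

lemma se_mem_cross {j : ℕ} {x y : V} :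
    s(x, y) ∈ X.cross j ↔ (X.gv x = j ∧ X.gv y = j) ∧ X.dis x ≠ X.dis y ∧
      ({x, y} : Finset V) ∈ X.SS0 := by
  unfold cross
  rw [Finset.mem_filter, Sym2.toFinset_mk_eq]
  constructor
  · rintro ⟨-, h1, ⟨a, ha, b, hb, hab⟩, h3⟩
    refine ⟨⟨h1 x (by simp), h1 y (by simp)⟩, ?_, h3⟩
    intro h
    apply hab
    rcases Sym2.mem_iff.1 ha with rfl | rfl <;> rcases Sym2.mem_iff.1 hb with rfl | rfl <;>
      simp [h]
  · rintro ⟨⟨h1, h2⟩, h3, h4⟩
    refine ⟨mem_univ _, ?_, ⟨x, by simp, y, by simp, h3⟩, h4⟩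
    intro a ha
    rcases Sym2.mem_iff.1 ha with rfl | rfl
    · exact h1
    · exact h2

lemma se_cross {j : ℕ} {e : Sym2 V} (he : e ∈ X.cross j) :
    ∃ x y : V, e = s(x, y) ∧ e.toFinset = {x, y} ∧ X.gv x = j ∧ X.gv y = j ∧
      X.dis x ≠ X.dis y ∧ ({x, y} : Finset V) ∈ X.SS0 := by
  induction e using Sym2.ind with
  | _ x y =>
    obtain ⟨⟨h1, h2⟩, h3, h4⟩ := (X.se_mem_cross).1 he
    exact ⟨x, y, rfl, Sym2.toFinset_mk_eq, h1, h2, h3, h4⟩

lemma se_part_union {S T : Finset V} {δ : Δ} :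
    X.part (S ∪ T) δ = X.part S δ ∪ X.part T δ := by
  unfold part
  exact filter_union _ _ _

lemma se_part_eq_empty {T : Finset V} {δ : Δ} {j : ℕ} (hT : ∀ x ∈ T, j ≤ X.gv x)
    (hδ : X.gen δ < j) : X.part T δ = ∅ := by
  unfold part
  rw [filter_eq_empty_iff]
  intro x hx h
  have := hT x hx
  unfold gv at this
  rw [h] at this
  omega

lemma se_claims {c : ℝ} {G w : Finset V → ℝ} {j : ℕ}
    (hw : ∀ S, X.wE j S = 2 ^ (X.ecr j S) * w S) (hw0 : ∀ S, 0 < w S) :
    claims ((1 : ℕ) : ℝ) (fun e : Sym2 V => e.toFinset) (X.cross j) (capOf c G (X.wE j)) =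
      capOf c G w := by
  funext S
  have h0 := hw0 S
  unfold claims capOf
  rw [hw S]
  have h2 : ((1 : ℝ) + ((1 : ℕ) : ℝ)) = 2 := by norm_num
  have h1 : ((X.cross j).filter (fun e => e.toFinset ⊆ S)).card = X.ecr j S := rfl
  rw [h2, h1]
  have h3 : (2 : ℝ) ^ (X.ecr j S) ≠ 0 := by positivity
  field_simp

lemma se_ecr {j : ℕ} {S T : Finset V} (hST : S ⊆ T) :
    ((X.cross j).filter (fun e => e.toFinset ⊆ T ∧ ¬ e.toFinset ⊆ S)).card + X.ecr j S =
      X.ecr j T := by
  have h1 : X.ecr j S = (((X.cross j).filter (fun e => e.toFinset ⊆ T)).filter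
      (fun e => e.toFinset ⊆ S)).card := by
    unfold ecr
    rw [filter_filter]
    congr 1
    ext e
    simp only [mem_filter]
    constructor
    · rintro ⟨h1, h2⟩
      exact ⟨h1, h2.trans hST, h2⟩
    · rintro ⟨h1, -, h2⟩
      exact ⟨h1, h2⟩
  have h2 : ((X.cross j).filter (fun e => e.toFinset ⊆ T ∧ ¬ e.toFinset ⊆ S)).card =
      (((X.cross j).filter (fun e => e.toFinset ⊆ T)).filter
      (fun e => ¬ e.toFinset ⊆ S)).card := by
    rw [filter_filter]
  rw [h1, h2, add_comm]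
  exact card_filter_add_card_filter_not _

lemma se_sel {j : ℕ} {Y : Δ → Finset V} {S T : Finset V} (hS : X.Sel j Y S)
    (hT : ∀ x ∈ T, j ≤ X.gv x) : X.Sel j Y (S ∪ T) := by
  intro δ hδ
  rw [X.se_part_union, X.se_part_eq_empty hT hδ, union_empty]
  exact hS δ hδ

lemma se_sel' {j : ℕ} {Y : Δ → Finset V} {T : Finset V}
    (hT : ∀ x ∈ T, j ≤ X.gv x) : X.Sel j Y T := by
  intro δ hδ
  exact Or.inl (X.se_part_eq_empty hT hδ)

lemma se_full {j : ℕ} (hj : j ≤ X.R) {Y : Δ → Finset V}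
    (hY : ∀ δ, X.gen δ < j → (Y δ).card = X.m) {S : Finset V} (hS : X.Sel j Y S) :
    ∀ δ, X.gen δ < j → (X.part S δ).card = 0 ∨ (X.part S δ).card = X.bs (X.gen δ) := by
  intro δ hδ
  have hb : X.bs (X.gen δ) = X.m := by
    unfold bs
    rw [if_pos (lt_of_lt_of_le hδ hj)]
  rcases hS δ hδ with h | h
  · left
    rw [h, card_empty]
  · right
    rw [h, hY δ hδ, hb]

lemma se_slope {G : Finset V → ℝ} {ν E : ℝ} {zm D : ℕ} (hX : X.Sz G ν E zm D) {c : ℝ}
    (hc : 0 < c) {j : ℕ} (hj : j ≤ X.R) {Y : Δ → Finset V}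
    (hY : ∀ δ, X.gen δ < j → (Y δ).card = X.m) {φ : Finset V → ℝ}
    (hφ : ∀ A, φ A ≠ 0 → X.Adm A ∧ X.Sel j Y A) {w : Finset V → ℝ}
    (hw : ∀ S, X.wE j S = 2 ^ (X.ecr j S) * w S) (hw0 : ∀ S, 0 < w S)
    (hmono : ∀ S T, T ∈ X.SS0 → S ⊆ T → (∀ δ ∈ X.compl S T, j ≤ X.gen δ) →
      (∏ δ ∈ X.compl S T, (X.NN (X.gen δ) : ℝ)) * w S ≤ w T) :
    SlopeA ν (X.SSt j Y) φ (capOf c G (X.wE j)) (X.cross j) (fun e => e.toFinset)
      ((1 : ℕ) : ℝ) := by
  intro A hA S hS e he hSA hnot
  obtain ⟨hS0, hSel⟩ := mem_filter.1 hS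
  obtain ⟨x, y, -, hxy, hx, hy, hd, h0⟩ := X.se_cross he
  simp only at hSA hnot
  have hκ : ∀ v ∈ e.toFinset, j ≤ X.gv v := by
    intro v hv
    rw [hxy, mem_insert, mem_singleton] at hv
    rcases hv with rfl | rfl
    · exact hx.ge
    · exact hy.ge
  have hT0 : S ∪ e.toFinset ∈ X.SS0 := by
    refine X.mem_SS0_of_adm (hφ A hA).1 hSA ?_
    refine ⟨x, mem_union_right _ ?_⟩
    rw [hxy]
    simp
  refine ⟨mem_filter.2 ⟨hT0, X.se_sel hSel hκ⟩, ?_⟩
  have hST : S ⊆ S ∪ e.toFinset := subset_union_left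
  have hss : S ⊂ S ∪ e.toFinset := by
    refine ⟨hST, fun h => hnot ?_⟩
    exact subset_union_right.trans h
  have hcnt := X.se_ecr (j := j) hST
  have hm := hmono S (S ∪ e.toFinset) hT0 hST
    (fun δ hδ => X.compl_ge hj hY hSel hδ)
  have hsl := hX.slope S hS0 (S ∪ e.toFinset) hT0 hss
  have h2 : ((1 : ℝ) + ((1 : ℕ) : ℝ)) = 2 := by norm_num
  unfold capOf
  rw [h2, hw (S ∪ e.toFinset), hw S, ← hcnt]
  set F := ((X.cross j).filter (fun e' => e'.toFinset ⊆ S ∪ e.toFinset ∧
    ¬ e'.toFinset ⊆ S)).card with hF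
  set T := S ∪ e.toFinset with hTdef
  have hwT := hw0 T
  have hwS := hw0 S
  have hGS := hX.pos S
  have hGT := hX.pos T
  have hν := hX.nu0
  rw [pow_add]
  have e1 : (2 : ℝ) ^ F * (c * G T / (2 ^ F * 2 ^ (X.ecr j S) * w T)) =
      c / 2 ^ (X.ecr j S) * (G T / w T) := by
    have h3 : (2 : ℝ) ^ F ≠ 0 := by positivity
    have h4 : (2 : ℝ) ^ (X.ecr j S) ≠ 0 := by positivity
    field_simp
  have e2 : ν * (c * G S / (2 ^ (X.ecr j S) * w S)) =
      c / 2 ^ (X.ecr j S) * (ν * G S / w S) := by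
    have h4 : (2 : ℝ) ^ (X.ecr j S) ≠ 0 := by positivity
    field_simp
  rw [e1, e2]
  apply mul_le_mul_of_nonneg_left _ (by positivity)
  rw [div_le_div_iff₀ hwT hwS]
  calc G T * w S ≤ (ν * G S * ∏ δ ∈ X.compl S T, (X.NN (X.gen δ) : ℝ)) * w S :=
        mul_le_mul_of_nonneg_right hsl hwS.le
    _ = ν * G S * ((∏ δ ∈ X.compl S T, (X.NN (X.gen δ) : ℝ)) * w S) := by ring
    _ ≤ ν * G S * w T := mul_le_mul_of_nonneg_left hm (by positivity)

end stepEaux

/-- one phase with the edges of generation `j` -/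
theorem stepE_gen (m : ℕ) (hm : 1 ≤ m) : ∃ K : ℝ, 0 < K ∧ ∀ {V Δ : Type} [Fintype V]
    [Fintype Δ] {n q : ℕ} (X : Setup V Δ) (emb : V ↪ Fin n) (G : Finset V → ℝ) (ν E : ℝ)
    (zm D : ℕ) (c : ℝ) (j : ℕ) (Y : Δ → Finset V) (φ : Finset V → ℝ)
    (M B : Finset (Sym2 (Fin n))) (w : Finset V → ℝ),
    X.m = m → X.Sz G ν E zm D → 0 < c → j ≤ X.R → X.Inv emb j Y (X.fpE j) φ M B →
    (∀ S, X.wE j S = 2 ^ (X.ecr j S) * w S) → (∀ S, 0 < w S) →
    (∀ S T, T ∈ X.SS0 → S ⊆ T → (∀ δ ∈ X.compl S T, j ≤ X.gen δ) →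
      (∏ δ ∈ X.compl S T, (X.NN (X.gen δ) : ℝ)) * w S ≤ w T) →
    (∀ S, ∏ i ∈ Ico j X.R, (X.NN i : ℝ) ^ (X.ff i S) ≤ w S) →
    (∀ (M' B' : Finset (Sym2 (Fin n))) (φ' : Finset V → ℝ),
      X.Inv emb j Y (X.fpS j) φ' M' B' →
      PP (X.SSt j Y) φ (capOf c G (X.wE j)) - K * c * err ν E zm D ≤
        PP (X.SSt j Y) φ' (capOf c G w) →
      MakerWins n m q true M' B') →
    MakerWins n m q true M B := by
  obtain ⟨C, hC, hph⟩ := phase m 2 hm
  refine ⟨C, hC, ?_⟩
  intro V Δ _ _ n q X emb G ν E zm D c j Y φ M B w hXm hX hc hj hI hw hw0 hmono hprod hcont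
  have hY : ∀ δ, X.gen δ < j → (Y δ).card = X.m := fun δ hδ => (hI.ycard δ hδ).2
  have hE0 : 0 < E := lt_of_lt_of_le one_pos hX.E1
  have hcl := X.se_claims (c := c) (G := G) hw hw0
  have hXm2 := X.hm
  set a := (X.y j + X.z j) + (X.y j + X.z j) with ha
  -- every small set in `SSt`
  have hbound : ∀ T ∈ X.SSt j Y, T.card ≤ 4 →
      capOf c G w T ≤ c * E * (1 / 2) ^ (X.pc j T) := by
    intro T hT hT4
    obtain ⟨hT0, hTs⟩ := mem_filter.1 hT
    exact X.cap_bound hX hc hj hT0 (X.se_full hj hY hTs) (by omega) (hprod T)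
  have hκSS : ∀ e ∈ X.cross j, e.toFinset ∈ X.SSt j Y := by
    intro e he
    obtain ⟨x, y, -, hxy, hx, hy, hd, h0⟩ := X.se_cross he
    rw [hxy]
    refine mem_filter.2 ⟨h0, X.se_sel' ?_⟩
    intro v hv
    rw [mem_insert, mem_singleton] at hv
    rcases hv with rfl | rfl
    · exact hx.ge
    · exact hy.ge
  have hpc : ∀ e ∈ X.cross j, X.pc j e.toFinset = a := by
    intro e he
    obtain ⟨x, y, -, hxy, hx, hy, hd, h0⟩ := X.se_cross he
    rw [hxy, X.pc_cross hd hx.ge hy.ge, hx, hy]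
  have hcard2 : ∀ e ∈ X.cross j, (e.toFinset : Finset V).card = 2 := by
    intro e he
    obtain ⟨x, y, -, hxy, hx, hy, hd, h0⟩ := X.se_cross he
    rw [hxy]
    exact card_pair (fun h => hd (by rw [h]))
  refine hph (ι := Sym2 V) emb (X.SSt j Y) (X.cross j) (fun e => e.toFinset)
    (fun e => {e.map emb}) 1 m ν (c * E * (1 / 2) ^ (a + D))
    (fun _ => c * E * (1 / 2) ^ a) (fun _ => c * E * (1 / 2) ^ (a + zm)) φ
    (capOf c G (X.wE j)) M B le_rfl hm (by omega) hX.nu0 hX.nu1 hI.disj hI.sub ?_ ?_ ?_ ?_ ?_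
    hI.nonneg ?_ hI.alive ?_ ?_ ?_ ?_ ?_ ?_ ?_
  · intro e he
    exact (hcard2 e he).le
  · intro e he
    simp
  · intro e he f hf
    obtain ⟨x, y, hexy, hxy, hx, hy, hd, h0⟩ := X.se_cross he
    rw [mem_singleton] at hf
    refine ⟨x, ?_, y, ?_, fun h => hd (by rw [h]), ?_⟩
    · simp only [hxy]; simp
    · simp only [hxy]; simp
    · rw [hf, hexy, Sym2.map_mk]
  · intro e he f hf hef
    rw [disjoint_singleton]
    intro h
    exact hef (Sym2.map.injective emb.injective h)
  · intro A hA e he x hx y hy h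
    rw [mem_singleton] at h
    have h1 : s(x, y) = e := by
      apply Sym2.map.injective emb.injective
      rw [← h, Sym2.map_mk]
    rw [← h1, Sym2.toFinset_mk_eq]
    intro v hv
    rw [mem_insert, mem_singleton] at hv
    rcases hv with rfl | rfl
    · exact hx
    · exact hy
  · intro S
    unfold capOf
    have := hX.pos S
    have := X.wE_pos j S
    positivity
  · exact X.se_slope hX hc hj hY hI.supp hw hw0 hmono
  · intro e he
    refine ⟨hκSS e he, ?_⟩
    rw [hcl]
    have := hbound _ (hκSS e he) (by rw [hcard2 e he]; norm_num)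
    rw [hpc e he] at this
    exact this
  · intro e he
    positivity
  · intro e he f hf hef hA
    obtain ⟨A, hA, hsub⟩ := hA
    obtain ⟨x, y, hexy, hxy, hx, hy, hd, h0⟩ := X.se_cross he
    obtain ⟨x', y', hfxy, hxy', hx', hy', hd', h0'⟩ := X.se_cross hf
    have hκ : ∀ v ∈ f.toFinset, j ≤ X.gv v := by
      intro v hv
      rw [hxy', mem_insert, mem_singleton] at hv
      rcases hv with rfl | rfl
      · exact hx'.ge
      · exact hy'.ge
    have hT0 : e.toFinset ∪ f.toFinset ∈ X.SS0 := by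
      refine X.mem_SS0_of_adm (hI.supp A hA).1 hsub ?_
      refine ⟨x, mem_union_left _ ?_⟩
      rw [hxy]
      simp
    have hse := (mem_filter.1 (hκSS e he)).2
    have hT : e.toFinset ∪ f.toFinset ∈ X.SSt j Y :=
      mem_filter.2 ⟨hT0, X.se_sel hse hκ⟩
    refine ⟨hT, ?_⟩
    rw [hcl]
    have hb := hbound _ hT ((card_union_le _ _).trans (by rw [hcard2 e he, hcard2 f hf]))
    have hss : e.toFinset ⊂ e.toFinset ∪ f.toFinset := by
      refine ⟨subset_union_left, fun h => hef ?_⟩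
      have h1 : f.toFinset ⊆ e.toFinset := subset_union_right.trans h
      have h2 : f.toFinset = e.toFinset :=
        eq_of_subset_of_card_le h1 (by rw [hcard2 e he, hcard2 f hf])
      have h3 : ∀ v, v ∈ f ↔ v ∈ e := by
        intro v
        rw [← Sym2.mem_toFinset, ← Sym2.mem_toFinset, h2]
      exact (Sym2.ext h3).symm
    have hlt := X.pc_lt hX.zm_z hX.zm_y hT0 (X.se_full hj hY hse)
      (X.se_full hj hY (mem_filter.1 hT).2) hss (j := j)
    rw [hpc e he] at hlt
    refine hb.trans ?_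
    apply mul_le_mul_of_nonneg_left _ (by positivity)
    exact pow_le_pow_of_le_one (by norm_num) (by norm_num) hlt
  · positivity
  · intro x y hxy hM hed hA
    obtain ⟨A, hA, hxA, hyA⟩ := hA
    obtain ⟨hAdm, hSel⟩ := hI.supp A hA
    have hfp : ¬ X.fpE j x y := fun h => hM (hI.fin A hA x hxA y hyA hxy h)
    unfold fpE at hfp
    push Not at hfp
    obtain ⟨hd, hx, hy⟩ := hfp
    have hsub : ({x, y} : Finset V) ⊆ A := by
      intro v hv
      rw [mem_insert, mem_singleton] at hv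
      rcases hv with rfl | rfl
      · exact hxA
      · exact hyA
    have h0 : ({x, y} : Finset V) ∈ X.SS0 :=
      X.mem_SS0_of_adm hAdm hsub ⟨x, by simp⟩
    have hS : ({x, y} : Finset V) ∈ X.SSt j Y := by
      refine mem_filter.2 ⟨h0, X.se_sel' ?_⟩
      intro v hv
      rw [mem_insert, mem_singleton] at hv
      rcases hv with rfl | rfl
      · exact hx
      · exact hy
    refine ⟨{x, y}, hS, ?_, ?_⟩
    · intro A' _ hx' hy' v hv
      rw [mem_insert, mem_singleton] at hv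
      rcases hv with rfl | rfl
      · exact hx'
      · exact hy'
    · rw [hcl]
      have hb := hbound _ hS (by rw [card_pair hxy]; norm_num)
      refine hb.trans ?_
      apply mul_le_mul_of_nonneg_left _ (by positivity)
      apply pow_le_pow_of_le_one (by norm_num) (by norm_num)
      rw [X.pc_cross hd hx hy]
      have hgx : X.gv x ≤ X.R := X.gen_le _
      have hgy : X.gv y ≤ X.R := X.gen_le _
      have hnot : ¬ (X.gv x = j ∧ X.gv y = j) := by
        intro h
        have hc' : s(x, y) ∈ X.cross j := (X.se_mem_cross).2 ⟨h, hd, h0⟩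
        apply hed _ hc'
        rw [mem_singleton, Sym2.map_mk]
      have hge : ∀ i, j ≤ i → i ≤ X.R → X.y j + X.z j ≤ X.y i + X.z i := by
        intro i hi hiR
        rcases hi.eq_or_lt with rfl | hlt
        · exact le_rfl
        · have := hX.g1 j (lt_of_lt_of_le hlt hiR) i hiR hlt
          omega
      have h1 := hge _ hx hgx
      have h2 := hge _ hy hgy
      rcases hx.eq_or_lt with h | h
      · rcases hy.eq_or_lt with h' | h'
        · exact absurd ⟨h.symm, h'.symm⟩ hnot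
        · have := hX.g1 j (lt_of_lt_of_le h' hgy) _ hgy h'
          omega
      · have := hX.g1 j (lt_of_lt_of_le h hgx) _ hgx h
        omega
  · intro M' B' φ' hMM' hBB' hdis hsub hφ' hal' hcl' hPP
    refine hcont M' B' φ' ?_ ?_
    · have hne : ∀ A, φ' A ≠ 0 → φ A ≠ 0 := by
        intro A hA h
        rcases hφ' A with h1 | h1
        · apply hA
          rw [h1]
          unfold claims
          rw [h, mul_zero]
        · exact hA h1
      refine ⟨?_, fun A hA => hI.supp A (hne A hA), hal', hdis, hsub, hI.ycard, ?_⟩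
      · intro A
        rcases hφ' A with h1 | h1
        · rw [h1]
          unfold claims
          have := hI.nonneg A
          positivity
        · rw [h1]
      · intro A hA x hx y hy hxy hfp
        rcases hfp with h | ⟨h1, h2⟩
        · exact hMM' (hI.fin A (hne A hA) x hx y hy hxy h)
        · by_cases hd : X.dis x = X.dis y
          · exact hMM' (hI.fin A (hne A hA) x hx y hy hxy (Or.inl hd))
          · have hsubA : ({x, y} : Finset V) ⊆ A := by
              intro v hv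
              rw [mem_insert, mem_singleton] at hv
              rcases hv with rfl | rfl
              · exact hx
              · exact hy
            have h0 : ({x, y} : Finset V) ∈ X.SS0 :=
              X.mem_SS0_of_adm (hI.supp A (hne A hA)).1 hsubA ⟨x, by simp⟩
            have hc' : s(x, y) ∈ X.cross j := (X.se_mem_cross).2 ⟨⟨h1, h2⟩, hd, h0⟩
            have := hcl' A hA _ hc' (by simp only [Sym2.toFinset_mk_eq]; exact hsubA)
            apply this
            rw [mem_singleton, Sym2.map_mk]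
    · rw [hcl] at hPP
      refine le_trans ?_ hPP
      rw [sum_const, nsmul_eq_mul]
      have hcc : ((X.cross j).card : ℝ) ≤ 2 ^ a := by
        have := X.card_cross hj
        have h2 : 2 * (X.y j + X.z j) = a := by omega
        rw [h2] at this
        exact_mod_cast this
      have h3 : ν * (c * E * (1 / 2) ^ a) + c * E * (1 / 2) ^ (a + zm) +
          c * E * (1 / 2) ^ (a + D) = (1 / 2) ^ a * (c * err ν E zm D) := by
        unfold err
        rw [pow_add, pow_add]
        ring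
      rw [h3]
      have herr : 0 ≤ c * err ν E zm D := by
        unfold err
        have := hX.nu0
        positivity
      have h4 : ((X.cross j).card : ℝ) * ((1 / 2) ^ a * (c * err ν E zm D)) ≤
          c * err ν E zm D := by
        calc ((X.cross j).card : ℝ) * ((1 / 2) ^ a * (c * err ν E zm D))
            ≤ 2 ^ a * ((1 / 2) ^ a * (c * err ν E zm D)) :=
              mul_le_mul_of_nonneg_right hcc (by positivity)
          _ = c * err ν E zm D := by
              rw [← mul_assoc, ← mul_pow]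
              norm_num
      have h5 := mul_le_mul_of_nonneg_left h4 hC.le
      rw [mul_assoc C c]
      linarith

/-! ## CH-E -/

theorem stepE (m R : ℕ) (hm : 1 ≤ m) : ∃ K : ℝ, 0 < K ∧ ∀ {V Δ : Type} [Fintype V] [Fintype Δ]
    {n q : ℕ} (X : Setup V Δ) (emb : V ↪ Fin n) (G : Finset V → ℝ) (ν E : ℝ) (zm D : ℕ)
    (c : ℝ) (j : ℕ) (Y : Δ → Finset V) (φ : Finset V → ℝ) (M B : Finset (Sym2 (Fin n))),
    X.m = m → X.R = R → X.Sz G ν E zm D → 0 < c → j < R → X.Inv emb j Y (X.fpE j) φ M B →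
    (∀ (M' B' : Finset (Sym2 (Fin n))) (φ' : Finset V → ℝ),
      X.Inv emb j Y (X.fpS j) φ' M' B' →
      PP (X.SSt j Y) φ (capOf c G (X.wE j)) - K * c * err ν E zm D ≤
        PP (X.SSt j Y) φ' (capOf c G (X.wS j)) →
      MakerWins n m q true M' B') →
    MakerWins n m q true M B := by
  obtain ⟨K, hK, h⟩ := stepE_gen m hm
  refine ⟨K, hK, ?_⟩
  intro V Δ _ _ n q X emb G ν E zm D c j Y φ M B hXm hXR hX hc hj hI hcont
  have hj' : j < X.R := by omega
  exact h X emb G ν E zm D c j Y φ M B (X.wS j) hXm hX hc hj'.le hI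
    (fun S => X.wE_succ hj' S) (fun S => X.wS_pos j S)
    (fun S T hT hST hcm => X.wS_mono hj' hT hST hcm) (fun S => X.prod_le_wS hj' S) hcont

/-- the last phase -/
theorem stepEnd (m R : ℕ) (hm : 1 ≤ m) : ∃ K : ℝ, 0 < K ∧ ∀ {V Δ : Type} [Fintype V]
    [Fintype Δ] {n q : ℕ} (X : Setup V Δ) (emb : V ↪ Fin n) (G : Finset V → ℝ) (ν E : ℝ)
    (zm D : ℕ) (c : ℝ) (Y : Δ → Finset V) (φ : Finset V → ℝ) (M B : Finset (Sym2 (Fin n))),
    X.m = m → X.R = R → X.Sz G ν E zm D → 0 < c → X.Inv emb R Y (X.fpE R) φ M B →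
    0 < PP (X.SSt R Y) φ (capOf c G (X.wE R)) - K * c * err ν E zm D →
    q ≤ ∑ j ∈ range (X.R + 1), X.bs j * X.k j →
    MakerWins n m q true M B := by
  obtain ⟨K, hK, h⟩ := stepE_gen m hm
  refine ⟨K, hK, ?_⟩
  intro V Δ _ _ n q X emb G ν E zm D c Y φ M B hXm hXR hX hc hI hpos hq
  subst hXR
  refine h X emb G ν E zm D c X.R Y φ M B (fun _ => 1) hXm hX hc le_rfl hI
    (fun S => by rw [X.wE_R, mul_one]) (fun _ => one_pos) ?_ ?_ ?_
  · intro S T hT hST hcm
    have : X.compl S T = ∅ := by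
      rw [eq_empty_iff_forall_notMem]
      intro δ hδ
      have h1 := X.compl_lt hδ
      have h2 := hcm δ hδ
      omega
    rw [this, prod_empty, one_mul]
  · intro S
    rw [Ico_self, prod_empty]
  · intro M' B' φ' hI' hPP
    have hpos' := lt_of_lt_of_le hpos hPP
    have hex : ∃ A, φ' A ≠ 0 := by
      by_contra hcon
      push Not at hcon
      have h0 : mass φ' ∅ = 0 := by
        unfold mass
        exact sum_eq_zero (fun A _ => hcon A)
      have h1 : 0 ≤ ∑ S ∈ X.SSt X.R Y, mass φ' S ^ 2 / capOf c G (fun _ => 1) S := by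
        apply sum_nonneg
        intro S _
        unfold capOf
        have := hX.pos S
        positivity
      unfold PP at hpos'
      rw [h0] at hpos'
      linarith
    obtain ⟨A, hA⟩ := hex
    have hAdm := (hI'.supp A hA).1
    have hcard := hAdm.card
    have hcl : HasClique q M' := by
      obtain ⟨A', hA'sub, hA'card⟩ := exists_subset_card_eq (s := A) (n := q)
        (by rw [hcard]; exact hq)
      refine ⟨A'.map emb, by rw [card_map, hA'card], ?_⟩
      intro u hu v hv huv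
      obtain ⟨x, hx, rfl⟩ := mem_map.1 hu
      obtain ⟨y, hy, rfl⟩ := mem_map.1 hv
      refine hI'.fin A hA x (hA'sub hx) y (hA'sub hy) (fun h => huv (by rw [h])) ?_
      have hgx : X.gv x ≤ X.R := X.gen_le _
      have hgy : X.gv y ≤ X.R := X.gen_le _
      unfold fpS fpE
      by_cases h1 : X.gv x < X.R
      · exact Or.inl (Or.inr (Or.inl h1))
      by_cases h2 : X.gv y < X.R
      · exact Or.inl (Or.inr (Or.inr h2))
      right
      omega
    exact Pool.Agent.Helper85.CliqueLB.wins_of_clique hm _ true M' B' le_rfl hcl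

end Setup

end Pool.Agent.Helper75.CG
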